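import Pool.Agent.Y160.T7.Stm

/-!
# Project T7: smoothness of a class of plane curves
-/

set_option autoImplicit false

open Polynomial

namespace Pool.Agent.Y179.T7

open Pool.Agent.Y160.SL (atZero powT IsTowerCurve Smooth derivT)

section

variable {k : Type} [Field k]

theorem coeff_derivT (f : k[X][X]) (n : ℕ) : (derivT f).coeff n = derivative (f.coeff n) := by
  unfold derivT
  rw [Polynomial.sum_def, finsetSum_coeff]
  simp only [coeff_C_mul_X_pow]
  rw [Finset.sum_ite_eq]
  split_ifs with h
  · rfl
  · rw [notMem_support_iff.1 h, derivative_zero]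

theorem derivT_add (f g : k[X][X]) : derivT (f + g) = derivT f + derivT g := by
  ext1 n
  simp [coeff_derivT]

theorem derivT_mul (f g : k[X][X]) : derivT (f * g) = derivT f * g + f * derivT g := by
  ext1 n
  simp only [coeff_derivT, coeff_mul, coeff_add, derivative_sum, derivative_mul,
    Finset.sum_add_distrib]

theorem derivT_C (a : k[X]) : derivT (C a) = C (derivative a) := by
  ext1 n
  rw [coeff_derivT, coeff_C, coeff_C]
  split_ifs
  · rfl
  · simp

theorem derivT_X : derivT (X : k[X][X]) = 0 := by
  ext1 n
  rw [coeff_derivT, coeff_X]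
  split_ifs <;> simp

theorem derivative_swap (f : k[X][X]) :
    derivative (Bivariate.swap f) = Bivariate.swap (derivT f) := by
  induction f using Polynomial.induction_on with
  | C a =>
    rw [derivT_C, Bivariate.swap_C, Bivariate.swap_C, derivative_map]
  | add p q hp hq => rw [map_add, derivative_add, hp, hq, derivT_add, map_add]
  | monomial n a h =>
    rw [pow_succ, ← mul_assoc]
    generalize (C a * X ^ n : k[X][X]) = g at h ⊢
    rw [map_mul, derivative_mul, h, derivT_mul, derivT_X, mul_zero,
      add_zero, map_mul, Bivariate.swap_Y, derivative_C, mul_zero, add_zero]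

theorem derivT_swap (f : k[X][X]) :
    derivT (Bivariate.swap f) = Bivariate.swap (derivative f) := by
  have h := derivative_swap (Bivariate.swap f)
  rw [Bivariate.swap_swap_apply] at h
  rw [h, Bivariate.swap_swap_apply]

theorem derivT_comp (f : k[X][X]) (c : k) (b : k[X]) :
    derivT (f.comp (C (C c) * X + C b)) = (derivT f).comp (C (C c) * X + C b) +
      C (derivative b) * (derivative f).comp (C (C c) * X + C b) := by
  have hA : derivT (C (C c) * X + C b : k[X][X]) = C (derivative b) := by
    rw [derivT_add, derivT_mul, derivT_C, derivT_C, derivT_X]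
    simp
  induction f using Polynomial.induction_on with
  | C a => simp [derivT_C]
  | add p q hp hq =>
    rw [add_comp, derivT_add, hp, hq, derivT_add, add_comp, derivative_add, add_comp]
    ring
  | monomial n a h =>
    rw [pow_succ, ← mul_assoc]
    generalize (C a * X ^ n : k[X][X]) = g at h ⊢
    rw [mul_comp, derivT_mul, h, derivT_mul, derivT_X, mul_zero,
      add_zero, derivative_mul, derivative_X, X_comp, hA, mul_comp, add_comp, mul_comp, X_comp,
      mul_one]
    ring

/-- smoothness in terms of prime ideals -/
theorem smooth_iff (f : k[X][X]) : Smooth f ↔ ∀ M : Ideal k[X][X], M.IsPrime → f ∈ M →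
    derivative f ∈ M → derivT f ∈ M → False := by
  unfold Smooth
  constructor
  · intro h M hM h1 h2 h3
    apply hM.ne_top
    rw [eq_top_iff, ← h, Ideal.span_le]
    intro x hx
    simp only [Set.mem_insert_iff, Set.mem_singleton_iff] at hx
    rcases hx with rfl | rfl | rfl
    · exact h1
    · exact h2
    · exact h3
  · intro h
    by_contra hne
    obtain ⟨M, hM, hle⟩ := Ideal.exists_le_maximal _ hne
    rw [Ideal.span_le] at hle
    exact h M hM.isPrime (hle (by simp)) (hle (by simp)) (hle (by simp))

theorem unit_mem (M : Ideal k[X][X]) (c : k) (hc : c ≠ 0) (g : k[X][X])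
    (h : C (C c) * g ∈ M) : g ∈ M := by
  have h1 := M.mul_mem_left (C (C c⁻¹)) h
  rwa [← mul_assoc, ← C_mul, ← C_mul, inv_mul_cancel₀ hc, C_1, C_1, one_mul] at h1

theorem mem_of_map_zero (M : Ideal k[X][X]) (hX : (C X : k[X][X]) ∈ M) (E : k[X][X])
    (hE : E.map (evalRingHom (0 : k)) = 0) : E ∈ M := by
  have h1 : (C X : k[X][X]) ∣ E := by
    rw [C_dvd_iff_dvd_coeff]
    intro i
    rw [X_dvd_iff, coeff_zero_eq_eval_zero]
    have := congrArg (fun q : k[X] => q.coeff i) hE
    simpa using this
  exact M.mem_of_dvd h1 hX

end

theorem st_smooth : Pool.Agent.Y160.T7.St_smooth := by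
  intro p k _ f hp hpk hf
  induction hf with
  | line =>
    rw [smooth_iff]
    intro M hM _ h2 _
    rw [derivative_X] at h2
    exact hM.ne_top ((Ideal.eq_top_iff_one _).2 h2)
  | unit f c hc _ ih =>
    rw [smooth_iff] at ih ⊢
    intro M hM h1 h2 h3
    refine ih M hM (unit_mem M c hc _ h1) ?_ ?_
    · rw [derivative_C_mul] at h2
      exact unit_mem M c hc _ h2
    · rw [derivT_mul, derivT_C, derivative_C, C_0, zero_mul, zero_add] at h3
      exact unit_mem M c hc _ h3
  | swap f _ ih =>
    rw [smooth_iff] at ih ⊢
    intro M hM h1 h2 h3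
    rw [derivative_swap] at h2
    rw [derivT_swap] at h3
    exact ih (M.comap ((Bivariate.swap : k[X][X] ≃ₐ[k] k[X][X]) : k[X][X] →+* k[X][X]))
      (hM.comap _) h1 h3 h2
  | shear f c b hc _ ih =>
    rw [smooth_iff] at ih ⊢
    intro M hM h1 h2 h3
    rw [derivative_comp] at h2
    have h2' : C (C c) * (derivative f).comp (C (C c) * X + C b) ∈ M := by
      simpa using h2
    have h4 := unit_mem M c hc _ h2'
    rw [derivT_comp] at h3
    have h5 : (derivT f).comp (C (C c) * X + C b) ∈ M :=
      (Ideal.add_mem_iff_left M (M.mul_mem_left _ h4)).1 h3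
    exact ih (M.comap (compRingHom (C (C c) * X + C b))) (hM.comap _) h1 h4 h5
  | root f _ hsep _ _ ih =>
    rw [smooth_iff] at ih ⊢
    intro M hM h1 h2 h3
    have hF : derivative (powT p f) = (derivative f).map (expand k p : k[X] →+* k[X]) := by
      unfold powT
      rw [derivative_map]
    have hT : derivT (powT p f) = C (C (p : k)) * (C X) ^ (p - 1) *
        (derivT f).map (expand k p : k[X] →+* k[X]) := by
      ext1 n
      have e : (C (C (p : k)) * (C X) ^ (p - 1) : k[X][X]) = C (C (p : k) * X ^ (p - 1)) := by
        simp
      rw [coeff_derivT, e, coeff_C_mul, coeff_map, coeff_derivT]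
      unfold powT
      rw [coeff_map]
      show derivative (expand k p (f.coeff n)) = C (p : k) * X ^ (p - 1) *
        expand k p (derivative (f.coeff n))
      rw [derivative_expand]
      simp only [map_natCast]
      ring
    rw [hT] at h3
    rcases hM.mem_or_mem h3 with h4 | h4
    · rcases hM.mem_or_mem h4 with h5 | h5
      · have h6 : C (C (p : k)) * (1 : k[X][X]) ∈ M := by rwa [mul_one]
        exact hM.ne_top ((Ideal.eq_top_iff_one _).2 (unit_mem M _ hpk _ h6))
      · have hX := hM.mem_of_pow_mem _ h5
        obtain ⟨s, r, hsr⟩ := hsep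
        have hz : (powT p f).map (evalRingHom (0 : k)) = atZero f := by
          unfold powT atZero
          rw [map_map]
          congr 1
          ext a
          · simp
          · simp [hp.ne_zero]
        have hz' : (derivative (powT p f)).map (evalRingHom (0 : k)) = derivative (atZero f) := by
          rw [← derivative_map, hz]
        have hc : ∀ q : k[X], (q.map C).map (evalRingHom (0 : k)) = q := by
          intro q
          rw [map_map]
          have : (evalRingHom (0 : k)).comp C = RingHom.id k := by
            ext a
            simp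
          rw [this, map_id]
        have hE : (s.map C * powT p f + r.map C * derivative (powT p f) - 1).map
            (evalRingHom (0 : k)) = 0 := by
          rw [Polynomial.map_sub, Polynomial.map_add, Polynomial.map_mul, Polynomial.map_mul,
            hz, hz', hc, hc, hsr, Polynomial.map_one, sub_self]
        have h6 := mem_of_map_zero M hX _ hE
        have h7 : s.map C * powT p f + r.map C * derivative (powT p f) ∈ M :=
          M.add_mem (M.mul_mem_left _ h1) (M.mul_mem_left _ h2)
        have h8 := M.sub_mem h7 h6
        rw [sub_sub_cancel] at h8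
        exact hM.ne_top ((Ideal.eq_top_iff_one _).2 h8)
    · rw [hF] at h2
      exact ih (M.comap (mapRingHom (expand k p : k[X] →+* k[X]))) (hM.comap _) h1 h2 h4

end Pool.Agent.Y179.T7
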